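import Pool.Agent.H17.Cone.Stmts

/-!
# Cone board: module REG
-/

set_option autoImplicit false

namespace Pool.Agent.H17.Cone

namespace REG

theorem det3 (M : Matrix (Fin 3) (Fin 3) ℝ) : M.det =
    M 0 0 * M 1 1 * M 2 2 - M 0 0 * M 1 2 * M 2 1 - M 0 1 * M 1 0 * M 2 2 +
      M 0 1 * M 1 2 * M 2 0 + M 0 2 * M 1 0 * M 2 1 - M 0 2 * M 1 1 * M 2 0 :=
  Matrix.det_fin_three M

end REG

/-- REG. -/
theorem reg_thm (hTRI : TRIStmt) : REGStmt := by
  intro K a x b e hF hM h21 h10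
  have hb0 : 0 ≤ b 0 := hF.nonneg 0
  have hb1 : 0 ≤ b 1 := hF.nonneg 1
  have hb2 : 0 ≤ b 2 := hF.nonneg 2
  -- coordinates of the points `e i`
  have e00 := hF.eval 0
  have e11 := hF.eval 1
  have e22 := hF.eval 2
  have s0 := hF.sum (e 0)
  have s1 := hF.sum (e 1)
  have s2 := hF.sum (e 2)
  have h01 := hF.high 1 (e 0) (hF.emem 0)
  have h02 := hF.high 2 (e 0) (hF.emem 0)
  have h10' := hF.high 0 (e 1) (hF.emem 1)
  have h12 := hF.high 2 (e 1) (hF.emem 1)
  have h20 := hF.high 0 (e 2) (hF.emem 2)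
  have h21' := hF.high 1 (e 2) (hF.emem 2)
  set p : ℝ := x 1 (e 0) with hp
  set q : ℝ := x 2 (e 1) with hq
  set r : ℝ := x 0 (e 2) with hr
  have e02 : x 2 (e 0) = 1 + b 0 - p := by linarith
  have e10 : x 0 (e 1) = 1 + b 1 - q := by linarith
  have e21 : x 1 (e 2) = 1 + b 2 - r := by linarith
  have hp0 : b 0 ≤ p := by linarith
  have hq0 : b 1 ≤ q := by linarith
  have hr0 : b 2 ≤ r := by linarith
  -- the three points `e 0, e 1, e 2`
  have hD := hM e hF.emem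
  have hD' : (!![-b 0, p, 1 + b 0 - p; 1 + b 1 - q, -b 1, q; r, 1 + b 2 - r, -b 2] :
      Matrix (Fin 3) (Fin 3) ℝ).det ≤ 1 := by
    refine le_trans (le_of_eq ?_) ((le_abs_self _).trans hD)
    congr 1
    ext i j
    fin_cases i <;> fin_cases j <;> simp [e00, e11, e22, e02, e10, e21, ← hp, ← hq, ← hr]
  have hT := hTRI (b 0) (b 1) (b 2) p q r hb2 h21 h10 hp0 h01 hq0 h12 hr0 h20 hD'
  -- the three points `e 0, e 1, a 1`
  have hmem : ∀ i, (![e 0, e 1, a 1] : Fin 3 → E2) i ∈ K := by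
    intro i
    fin_cases i
    · exact hF.emem 0
    · exact hF.emem 1
    · exact hF.mem 1
  have hE := (neg_abs_le _).trans' (neg_le_neg (hM _ hmem))
  have hE2 := (le_abs_self _).trans (hM _ hmem)
  rw [REG.det3] at hE hE2
  have a10 : x 0 (a 1) = 0 := by rw [hF.delta]; simp
  have a11 : x 1 (a 1) = 1 := by rw [hF.delta]; simp
  have a12 : x 2 (a 1) = 0 := by rw [hF.delta]; simp
  simp only [Matrix.of_apply, Matrix.cons_val_zero, Matrix.cons_val_one, Matrix.cons_val,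
    e00, e11, e22, e02, e10, e21, ← hp, ← hq, ← hr, a10, a11, a12] at hE hE2
  have h1 : b 0 * (1 + b 1) ≤ 1 := by
    nlinarith [mul_nonneg (sub_nonneg.mpr h01) (sub_nonneg.mpr h10'),
      mul_nonneg hb0 hb1]
  refine ⟨by nlinarith [mul_nonneg hb0 hb1], h1, hT⟩

end Pool.Agent.H17.Cone
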