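import Pool.Agent.H17.Cone.Stmts

/-!
# Cone board: module TRI
-/

set_option autoImplicit false

namespace Pool.Agent.H17.Cone

namespace TRI

theorem aff (A B u v x c : ℝ) (h1 : u ≤ x) (h2 : x ≤ v) (hu : c ≤ A * u + B)
    (hv : c ≤ A * v + B) : c ≤ A * x + B := by
  rcases le_total 0 A with hA | hA
  · nlinarith [mul_le_mul_of_nonneg_left h1 hA]
  · nlinarith [mul_le_mul_of_nonpos_left h2 hA]

/-- The determinant. -/
def D (b1 b2 b3 p q r : ℝ) : ℝ :=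
  -b1 * (b2 * b3 - q * (1 + b3 - r)) - p * (-(1 + b2 - q) * b3 - q * r) +
    (1 + b1 - p) * ((1 + b2 - q) * (1 + b3 - r) + b2 * r)

theorem affp (b1 b2 b3 p q r c : ℝ) (h1 : b1 ≤ p) (h2 : p ≤ 1) (hu : c ≤ D b1 b2 b3 b1 q r)
    (hv : c ≤ D b1 b2 b3 1 q r) : c ≤ D b1 b2 b3 p q r := by
  have := aff (-(-(1 + b2 - q) * b3 - q * r) - ((1 + b2 - q) * (1 + b3 - r) + b2 * r))
    (-b1 * (b2 * b3 - q * (1 + b3 - r)) + (1 + b1) * ((1 + b2 - q) * (1 + b3 - r) + b2 * r))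
    b1 1 p c h1 h2 (by unfold D at hu; linarith) (by unfold D at hv; linarith)
  unfold D; linarith

theorem affq (b1 b2 b3 p q r c : ℝ) (h1 : b2 ≤ q) (h2 : q ≤ 1) (hu : c ≤ D b1 b2 b3 p b2 r)
    (hv : c ≤ D b1 b2 b3 p 1 r) : c ≤ D b1 b2 b3 p q r := by
  have := aff (b1 * (1 + b3 - r) - p * (b3 - r) - (1 + b1 - p) * (1 + b3 - r))
    (-b1 * (b2 * b3) + p * (1 + b2) * b3 +
      (1 + b1 - p) * ((1 + b2) * (1 + b3 - r) + b2 * r))
    b2 1 q c h1 h2 (by unfold D at hu; linarith) (by unfold D at hv; linarith)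
  unfold D; linarith

theorem affr (b1 b2 b3 p q r c : ℝ) (h1 : b3 ≤ r) (h2 : r ≤ 1) (hu : c ≤ D b1 b2 b3 p q b3)
    (hv : c ≤ D b1 b2 b3 p q 1) : c ≤ D b1 b2 b3 p q r := by
  have := aff (-(b1 * q) + p * q - (1 + b1 - p) * (1 + b2 - q) + (1 + b1 - p) * b2)
    (-b1 * (b2 * b3 - q * (1 + b3)) + p * (1 + b2 - q) * b3 +
      (1 + b1 - p) * ((1 + b2 - q) * (1 + b3)))
    b3 1 r c h1 h2 (by unfold D at hu; linarith) (by unfold D at hv; linarith)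
  unfold D; linarith

theorem key (b1 b2 b3 p q r : ℝ) (h3 : 0 ≤ b3) (h32 : b3 ≤ b2) (h21 : b2 ≤ b1) (hb1 : b1 ≤ 1)
    (hp : b1 ≤ p) (hp1 : p ≤ 1) (hq : b2 ≤ q) (hq1 : q ≤ 1) (hr : b3 ≤ r) (hr1 : r ≤ 1) :
    (b2 + b3) * (1 + b1) ≤ D b1 b2 b3 p q r := by
  have h2 : 0 ≤ b2 := h3.trans h32
  have h1 : 0 ≤ b1 := h2.trans h21
  have m12 : 0 ≤ b1 * b2 := mul_nonneg h1 h2
  have m13 : 0 ≤ b1 * b3 := mul_nonneg h1 h3
  have m23 : 0 ≤ b2 * b3 := mul_nonneg h2 h3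
  have m123 : 0 ≤ b1 * b2 * b3 := mul_nonneg m12 h3
  have k1 : 0 ≤ (1 - b1) * (1 - b2) := mul_nonneg (by linarith) (by linarith)
  have k2 : 0 ≤ (1 - b1) * (1 - b3) := mul_nonneg (by linarith) (by linarith)
  have k3 : 0 ≤ (1 - b2) * (1 - b3) := mul_nonneg (by linarith) (by linarith)
  have k4 : 0 ≤ (b1 - b2) * (1 - b3) := mul_nonneg (by linarith) (by linarith)
  have k5 : 0 ≤ (b1 - b3) * (1 - b2) := mul_nonneg (by linarith) (by linarith)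
  have k6 : 0 ≤ (b2 - b3) * (1 - b1) := mul_nonneg (by linarith) (by linarith)
  apply affp _ _ _ _ _ _ _ hp hp1 <;> apply affq _ _ _ _ _ _ _ hq hq1 <;>
    apply affr _ _ _ _ _ _ _ hr hr1 <;> unfold D
  all_goals nlinarith [mul_nonneg m12 h3, mul_nonneg k1 h3, mul_nonneg k2 h2, mul_nonneg k3 h1]

end TRI

/-- TRI. -/
theorem tri_thm : TRIStmt := by
  intro b1 b2 b3 p q r h3 h32 h21 hp hp1 hq hq1 hr hr1 hD
  have := TRI.key b1 b2 b3 p q r h3 h32 h21 (hp.trans hp1) hp hp1 hq hq1 hr hr1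
  rw [Matrix.det_fin_three] at hD
  simp at hD
  unfold TRI.D at this
  linarith

end Pool.Agent.H17.Cone
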